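import Pool.Agent.Y300.LC.Stm

set_option autoImplicit false

open PowerSeries Finset Filter Topology
open scoped ENNReal NNReal

namespace Pool.Agent.Y308.LC
open Pool.Agent.Y300.LC

/-- `F` is the expansion of `f` on the ball of radius `δ` -/
def Rep (δ : ℝ) (f : ℂ → ℂ) (F : PowerSeries ℂ) : Prop :=
  ∀ w ∈ Metric.ball (0:ℂ) δ, HasSum (fun m => coeff m F * w ^ m) (f w)

/-- the Taylor series at the origin -/
noncomputable def T (f : ℂ → ℂ) : PowerSeries ℂ :=
  PowerSeries.mk fun m => iteratedDeriv m f 0 / (m.factorial : ℂ)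

variable {δ : ℝ} {f g : ℂ → ℂ} {F G : PowerSeries ℂ}

lemma rep_ball (hδ : 0 < δ) (h : Rep δ f F) :
    HasFPowerSeriesOnBall f (FormalMultilinearSeries.ofScalars ℂ (fun m => coeff m F)) 0
      (ENNReal.ofReal δ) := by
  refine ⟨?_, by simpa using hδ, ?_⟩
  · refine ENNReal.le_of_forall_nnreal_lt (fun r hr => ?_)
    have hr1 : (r:ℝ) < δ := by
      have := (ENNReal.toReal_lt_toReal ENNReal.coe_ne_top ENNReal.ofReal_ne_top).2 hr
      rwa [ENNReal.coe_toReal, ENNReal.toReal_ofReal hδ.le] at this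
    refine FormalMultilinearSeries.le_radius_of_tendsto (l := 0) _ ?_
    have h1 := (h (r:ℂ) (by simp [hr1])).summable.tendsto_atTop_zero.norm
    rw [norm_zero] at h1
    refine h1.congr (fun n => ?_)
    rw [FormalMultilinearSeries.ofScalars_norm, norm_mul, norm_pow]
    simp
  · intro y hy
    have hy' : y ∈ Metric.ball (0:ℂ) δ := by
      rwa [Metric.eball_ofReal] at hy
    have := h y hy'
    rw [zero_add, FormalMultilinearSeries.ofScalars_apply_eq']
    simpa [smul_eq_mul] using this

lemma rep_coeff (hδ : 0 < δ) (h : Rep δ f F) (m : ℕ) :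
    coeff m F = iteratedDeriv m f 0 / (m.factorial : ℂ) := by
  have h1 : HasFPowerSeriesAt f (FormalMultilinearSeries.ofScalars ℂ (fun m => coeff m F)) 0 :=
    (rep_ball hδ h).hasFPowerSeriesAt
  have h2 := h1.analyticAt.hasFPowerSeriesAt
  have h3 := h1.eq_formalMultilinearSeries h2
  have h4 := congrArg (fun p => FormalMultilinearSeries.coeff p m) h3
  simp only [FormalMultilinearSeries.coeff_ofScalars] at h4
  exact h4

lemma rep_unique (hδ : 0 < δ) (h1 : Rep δ f F) (h2 : Rep δ f G) : F = G := by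
  ext m
  rw [rep_coeff hδ h1, rep_coeff hδ h2]

lemma rep_congr (h : Rep δ f F) (hfg : ∀ w ∈ Metric.ball (0:ℂ) δ, f w = g w) : Rep δ g F := by
  intro w hw
  rw [← hfg w hw]
  exact h w hw

lemma rep_T (hf : DifferentiableOn ℂ f (Metric.ball 0 δ)) : Rep δ f (T f) := by
  intro w hw
  have h1 := Complex.hasSum_taylorSeries_on_ball hf hw
  refine h1.congr_fun (fun m => ?_) |> fun h => h
  simp only [T, coeff_mk, sub_zero, smul_eq_mul]
  ring

lemma rep_add (h1 : Rep δ f F) (h2 : Rep δ g G) : Rep δ (fun w => f w + g w) (F + G) := by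
  intro w hw
  have := (h1 w hw).add (h2 w hw)
  simp only [map_add, add_mul]
  exact this

lemma rep_smul (c : ℂ) (h1 : Rep δ f F) : Rep δ (fun w => c * f w) (C c * F) := by
  intro w hw
  have := (h1 w hw).mul_left c
  simp only [coeff_C_mul, mul_assoc]
  exact this

lemma rep_mul (h1 : Rep δ f F) (h2 : Rep δ g G) : Rep δ (fun w => f w * g w) (F * G) := by
  intro w hw
  have s1 := (h1 w hw).summable.norm
  have s2 := (h2 w hw).summable.norm
  have h3 := tsum_mul_tsum_eq_tsum_sum_antidiagonal_of_summable_norm s1 s2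
  have h4 := (summable_norm_sum_mul_antidiagonal_of_summable_norm s1 s2).of_norm
  rw [(h1 w hw).tsum_eq, (h2 w hw).tsum_eq] at h3
  have h5 := h4.hasSum
  rw [← h3] at h5
  have e : (fun m => coeff m (F * G) * w ^ m) =
      fun n => ∑ kl ∈ antidiagonal n, coeff kl.1 F * w ^ kl.1 * (coeff kl.2 G * w ^ kl.2) := by
    funext m
    rw [coeff_mul, Finset.sum_mul]
    refine Finset.sum_congr rfl (fun kl hkl => ?_)
    rw [← mem_antidiagonal.1 hkl, pow_add]
    ring
  rw [e]
  exact h5

lemma rep_one : Rep δ (fun _ => 1) 1 := by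
  intro w _
  have h := hasSum_ite_eq (0:ℕ) (1:ℂ)
  have e : (fun m => coeff m (1 : PowerSeries ℂ) * w ^ m) = fun m => if m = 0 then 1 else 0 := by
    funext m
    rw [coeff_one]
    by_cases hm : m = 0
    · simp [hm]
    · simp [hm]
  rw [e]
  exact h

lemma rep_pow (h1 : Rep δ f F) (k : ℕ) : Rep δ (fun w => f w ^ k) (F ^ k) := by
  induction k with
  | zero => simpa using rep_one
  | succ k ih =>
    have := rep_mul ih h1
    simpa only [pow_succ] using this

lemma rep_X : Rep δ (fun w => w) X := by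
  intro w _
  have h := hasSum_ite_eq (1:ℕ) w
  have e : (fun m => coeff m (X : PowerSeries ℂ) * w ^ m) = fun m => if m = 1 then w else 0 := by
    funext m
    rw [coeff_X]
    by_cases hm : m = 1
    · simp [hm]
    · simp [hm]
  rw [e]
  exact h

lemma T_deriv (f : ℂ → ℂ) : T (deriv f) = derivative ℂ (T f) := by
  ext m
  rw [coeff_derivative]
  simp only [T, coeff_mk]
  rw [← iteratedDeriv_succ', Nat.factorial_succ]
  have h1 : (m.factorial : ℂ) ≠ 0 := by exact_mod_cast m.factorial_ne_zero
  have h2 : ((m : ℂ) + 1) ≠ 0 := by exact_mod_cast m.succ_ne_zero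
  push_cast
  field_simp

/-- **LC-ANA** -/
theorem ana_all (hs : S_SOL) (hl : S_LOC) : S_ANA := by
  intro N p q hN
  obtain ⟨δ, φ, hδ, h0, hd, hi, h1, hne, heq⟩ := hl N p q hN
  have hdd : DifferentiableOn ℂ (deriv φ) (Metric.ball 0 δ) := hd.deriv Metric.isOpen_ball
  have hF := rep_T hd
  have hF' : Rep δ (deriv φ) (derivative ℂ (T φ)) := by
    rw [← T_deriv]
    exact rep_T hdd
  have hsolF : IsSol N p q (T φ) := by
    refine ⟨?_, ?_, ?_⟩
    · rw [← coeff_zero_eq_constantCoeff_apply]
      simp [T, h0]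
    · simp [T, h1, iteratedDeriv_one]
    · refine rep_unique hδ (rep_mul rep_X hF') ?_
      refine rep_congr (rep_add (rep_add hF (rep_smul p (rep_pow hF N)))
        (rep_smul q (rep_pow hF (N + 1)))) (fun w hw => ?_)
      exact (heq w hw).symm
  have hsol : sol N p q = T φ := by
    have h2 : IsSol N p q (sol N p q) := Classical.epsilon_spec ⟨T φ, hsolF⟩
    exact (hs ℂ N p q hN).unique h2 hsolF
  refine ⟨δ, φ, hδ, h0, hd, hi, hne, heq, ?_, ?_⟩
  · intro k w hw
    unfold B bb
    rw [hsol]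
    exact rep_pow hF k w hw
  · intro j w hw
    rw [hsol]
    have hq : DifferentiableOn ℂ (fun w => φ w ^ j / deriv φ w) (Metric.ball 0 δ) :=
      (hd.pow j).div hdd hne
    have hG := rep_T hq
    have h2 : T (fun w => φ w ^ j / deriv φ w) * derivative ℂ (T φ) = (T φ) ^ j := by
      refine rep_unique hδ (rep_mul hG hF') ?_
      refine rep_congr (rep_pow hF j) (fun w hw => ?_)
      have := hne w hw
      field_simp
    have hc : constantCoeff (derivative ℂ (T φ)) = ((1 : ℂˣ) : ℂ) := by
      rw [← coeff_zero_eq_constantCoeff_apply, coeff_derivative]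
      simp [T, h1, iteratedDeriv_one]
    have h3 : derivative ℂ (T φ) * invOfUnit (derivative ℂ (T φ)) 1 = 1 :=
      mul_invOfUnit _ _ hc
    have h4 : ser (T φ) j = T (fun w => φ w ^ j / deriv φ w) := by
      unfold ser
      rw [← h2, mul_assoc, h3, mul_one]
    rw [h4]
    exact hG w hw

end Pool.Agent.Y308.LC
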