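import Pool.Agent.Y300.LC.Stm

set_option autoImplicit false

open Finset Filter Topology

namespace Pool.Agent.Y308.LC
open Pool.Agent.Y300.LC

/-- **LC-LOC** -/
theorem loc_all : S_LOC := by
  intro N p q hN
  set H : ℂ → ℂ := fun z => 1 + p * z ^ (N - 1) + q * z ^ N with hH
  have hHc : Continuous H := by simp only [hH]; fun_prop
  have hN1 : N - 1 ≠ 0 := by omega
  have hN0 : N ≠ 0 := by omega
  have hH0 : H 0 = 1 := by simp [hH, hN1, hN0]
  obtain ⟨R, hR, hHR⟩ := Metric.eventually_nhds_iff_ball.1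
    (hHc.continuousAt.eventually_ne (show H 0 ≠ 0 by rw [hH0]; exact one_ne_zero))
  set h : ℂ → ℂ := fun z => -(p * z ^ (N - 2) + q * z ^ (N - 1)) / H z with hh
  have hdh : DifferentiableOn ℂ h (Metric.ball 0 R) := by
    refine DifferentiableOn.div ?_ ?_ hHR
    · exact Differentiable.differentiableOn (by fun_prop)
    · exact Differentiable.differentiableOn (by simp only [hH]; fun_prop)
  obtain ⟨L, hL0, hL⟩ := hdh.isExactOn_ball.with_val_at 0 0
  set ψ : ℂ → ℂ := fun z => z * Complex.exp (L z) with hψ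
  have hψd : ∀ z ∈ Metric.ball (0:ℂ) R, HasDerivAt ψ (Complex.exp (L z) / H z) z := by
    intro z hz
    have h1 := (hasDerivAt_id z).mul ((hL z hz).cexp)
    have h2 : Complex.exp (L z) / H z = 1 * Complex.exp (L z) +
        id z * (Complex.exp (L z) * h z) := by
      have hz0 := hHR z hz
      have e1 : z * z ^ (N - 2) = z ^ (N - 1) := by
        rw [← pow_succ']; congr 1; omega
      have e2 : z * z ^ (N - 1) = z ^ N := by
        rw [← pow_succ']; congr 1; omega
      have e3 : H z + z * -(p * z ^ (N - 2) + q * z ^ (N - 1)) = 1 := by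
        have : z * -(p * z ^ (N - 2) + q * z ^ (N - 1)) =
          -(p * (z * z ^ (N - 2)) + q * (z * z ^ (N - 1))) := by ring
        rw [this, e1, e2]
        simp only [hH]
        ring
      have e4 : 1 + z * h z = 1 / H z := by
        rw [eq_div_iff hz0]
        have e5 : h z * H z = -(p * z ^ (N - 2) + q * z ^ (N - 1)) := div_mul_cancel₀ _ hz0
        linear_combination e3 + z * e5
      calc Complex.exp (L z) / H z = Complex.exp (L z) * (1 / H z) := by ring
        _ = Complex.exp (L z) * (1 + z * h z) := by rw [e4]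
        _ = _ := by simp only [id]; ring
    rw [h2]
    exact h1
  have h0R : (0:ℂ) ∈ Metric.ball (0:ℂ) R := Metric.mem_ball_self hR
  have hψa : AnalyticAt ℂ ψ 0 := by
    have : DifferentiableOn ℂ ψ (Metric.ball 0 R) := fun z hz =>
      (hψd z hz).differentiableAt.differentiableWithinAt
    exact this.analyticAt (Metric.ball_mem_nhds _ hR)
  have hψ0 : ψ 0 = 0 := by simp [hψ]
  have hd0 : deriv ψ 0 = 1 := by
    rw [(hψd 0 h0R).deriv, hL0, hH0]
    simp
  have hd0' : deriv ψ 0 ≠ 0 := by rw [hd0]; exact one_ne_zero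
  set φ : ℂ → ℂ := hψa.hasStrictDerivAt.localInverse _ _ _ hd0' with hφ
  have hφa : AnalyticAt ℂ φ 0 := by
    have := hψa.analyticAt_localInverse hd0'
    rwa [hψ0] at this
  have hφ0 : φ 0 = 0 := by
    have : φ (ψ 0) = 0 := HasStrictFDerivAt.localInverse_apply_image ..
    rwa [hψ0] at this
  have hri : ∀ᶠ w in 𝓝 (0:ℂ), ψ (φ w) = w := by
    have := hψa.hasStrictDerivAt.eventually_right_inverse hd0'
    rwa [hψ0] at this
  have hball : ∀ᶠ w in 𝓝 (0:ℂ), φ w ∈ Metric.ball (0:ℂ) R := by
    refine hφa.continuousAt.eventually_mem ?_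
    rw [hφ0]
    exact Metric.ball_mem_nhds _ hR
  have hdiff : ∀ᶠ w in 𝓝 (0:ℂ), DifferentiableAt ℂ φ w :=
    hφa.eventually_analyticAt.mono fun w hw => hw.differentiableAt
  obtain ⟨δ, hδ, hall⟩ := Metric.eventually_nhds_iff_ball.1 (hri.and (hball.and hdiff))
  have hder : ∀ w ∈ Metric.ball (0:ℂ) δ,
      Complex.exp (L (φ w)) / H (φ w) * deriv φ w = 1 := by
    intro w hw
    obtain ⟨h1, h2, h3⟩ := hall w hw
    have h4 := (hψd _ h2).comp w h3.hasDerivAt
    have h5 : (ψ ∘ φ) =ᶠ[𝓝 w] id := by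
      filter_upwards [Metric.isOpen_ball.mem_nhds hw] with v hv
      exact (hall v hv).1
    have h6 : HasDerivAt (ψ ∘ φ) 1 w := (hasDerivAt_id w).congr_of_eventuallyEq h5
    exact h4.unique h6
  refine ⟨δ, φ, hδ, hφ0, fun w hw => (hall w hw).2.2.differentiableWithinAt, ?_, ?_, ?_, ?_⟩
  · intro w hw w' hw' he
    rw [← (hall w hw).1, ← (hall w' hw').1, he]
  · have := hder 0 (Metric.mem_ball_self hδ)
    rw [hφ0, hL0, hH0] at this
    simpa using this
  · intro w hw h0
    have := hder w hw
    rw [h0, mul_zero] at this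
    exact zero_ne_one this
  · intro w hw
    have h1 := hder w hw
    obtain ⟨h2, h3, -⟩ := hall w hw
    have h4 := hHR _ h3
    have h5 : Complex.exp (L (φ w)) ≠ 0 := Complex.exp_ne_zero _
    have h6 : deriv φ w = H (φ w) / Complex.exp (L (φ w)) := by
      field_simp at h1 ⊢
      linear_combination h1
    have h7 : w = φ w * Complex.exp (L (φ w)) := h2.symm
    have h8 : w * deriv φ w = φ w * H (φ w) := by
      rw [h6]
      nth_rewrite 1 [h7]
      field_simp
    rw [h8]
    have e2 : φ w * φ w ^ (N - 1) = φ w ^ N := by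
      rw [← pow_succ']; congr 1; omega
    calc φ w * H (φ w) = φ w + p * (φ w * φ w ^ (N - 1)) + q * (φ w ^ N * φ w) := by
          simp only [hH]; ring
      _ = _ := by rw [e2, ← pow_succ]

end Pool.Agent.Y308.LC
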