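import Pool.Agent.Y308.LC.Ana

set_option autoImplicit false

open Finset Filter Topology
open scoped ENNReal NNReal ComplexConjugate

namespace Pool.Agent.Y308.LC
open Pool.Agent.Y300.LC

/-- a power series which vanishes on an interval `(0, δ)` is zero -/
lemma coeff_zero_of_real {δ : ℝ} (hδ : 0 < δ) (a : ℕ → ℂ)
    (h : ∀ x : ℝ, 0 < x → x < δ → HasSum (fun m => a m * (x:ℂ) ^ m) 0) (m : ℕ) : a m = 0 := by
  set F : PowerSeries ℂ := PowerSeries.mk a with hF
  set g : ℂ → ℂ := fun w => ∑' m, a m * w ^ m with hg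
  have hrep : Rep δ g F := by
    intro w hw
    simp only [hF, PowerSeries.coeff_mk]
    have hw' : ‖w‖ < δ := by simpa using hw
    obtain ⟨x, hx1, hx2⟩ := exists_between hw'
    have hx0 : 0 < x := (norm_nonneg w).trans_lt hx1
    have hs := (h x hx0 hx2).summable.norm
    refine (Summable.of_norm_bounded hs (fun m => ?_)).hasSum
    rw [norm_mul, norm_mul, norm_pow, norm_pow]
    refine mul_le_mul_of_nonneg_left (pow_le_pow_left₀ (norm_nonneg _) ?_ m) (norm_nonneg _)
    rw [Complex.norm_real, Real.norm_of_nonneg hx0.le]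
    exact hx1.le
  have h1 := (rep_ball hδ hrep).hasFPowerSeriesAt
  have h2 : ∃ᶠ z in 𝓝[≠] (0:ℂ), g z = 0 := by
    rw [frequently_nhdsWithin_iff, Metric.nhds_basis_ball.frequently_iff]
    intro ε hε
    have hpos : 0 < min ε δ / 2 := by positivity
    refine ⟨((min ε δ / 2 : ℝ) : ℂ), ?_, ?_, ?_⟩
    · rw [mem_ball_zero_iff, Complex.norm_real, Real.norm_of_nonneg hpos.le]
      linarith [min_le_left ε δ]
    · have := h (min ε δ / 2) hpos (by linarith [min_le_right ε δ])
      exact this.tsum_eq
    · simp only [Set.mem_compl_iff, Set.mem_singleton_iff]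
      exact_mod_cast hpos.ne'
  have h3 := h1.analyticAt.frequently_zero_iff_eventually_zero.1 h2
  have h4 := h1.eq_zero_of_eventually h3
  have h5 := (FormalMultilinearSeries.ofScalars_series_eq_zero ℂ).1 h4
  have h6 := congrFun h5 m
  simpa [hF] using h6

/-- **LC-REAL** -/
theorem real_all (hm : S_MINOR) : S_REAL := by
  intro ι _ v δ r hδ hsum hr
  classical
  set u : ι ⊕ ι → ℕ → ℂ := Sum.elim v fun i m => conj (v i m) with hu
  have hfin : Module.Finite ℂ ↥(Submodule.span ℂ (Set.range u)) :=
    FiniteDimensional.span_of_finite ℂ (Set.finite_range u)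
  obtain ⟨f, hf1, -, hf3⟩ := Submodule.exists_fun_fin_finrank_span_eq ℂ (Set.range u)
  have hw : LinearIndependent ℂ (fun l : Fin r => f (Fin.castLE hr l)) :=
    hf3.comp _ (Fin.castLE_injective hr)
  choose e he using fun l : Fin r => hf1 (Fin.castLE hr l)
  -- the functions
  have hsu : ∀ s : ι ⊕ ι, ∀ x : ℝ, 0 < x → x < δ → Summable fun m => u s m * (x:ℂ) ^ m := by
    rintro (i | i) x hx0 hx1
    · exact hsum i x hx0 hx1
    · have h1 := (hsum i x hx0 hx1).hasSum
      have h2 := (Complex.hasSum_conj' (L := SummationFilter.unconditional ℕ)).2 h1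
      refine h2.summable.congr (fun m => ?_)
      simp [hu]
  let X := {x : ℝ // 0 < x ∧ x < δ}
  let F : Fin r → X → ℂ := fun l x => ∑' m, u (e l) m * ((x : ℝ) : ℂ) ^ m
  have hFi : LinearIndependent ℂ F := by
    rw [Fintype.linearIndependent_iff]
    intro c hc
    have h0 : ∀ m, ∑ l, c l * u (e l) m = 0 := by
      refine coeff_zero_of_real hδ (fun m => ∑ l, c l * u (e l) m) (fun x hx0 hx1 => ?_)
      have h1 : HasSum (fun m => ∑ l, c l * (u (e l) m * (x:ℂ) ^ m)) (∑ l, c l * F l ⟨x, hx0, hx1⟩) :=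
        hasSum_sum (fun l _ => ((hsu (e l) x hx0 hx1).hasSum).mul_left (c l))
      have h2 : ∑ l, c l * F l ⟨x, hx0, hx1⟩ = 0 := by
        have := congrFun hc ⟨x, hx0, hx1⟩
        simpa [Finset.sum_apply, smul_eq_mul] using this
      rw [h2] at h1
      refine h1.congr_fun (fun m => ?_)
      rw [Finset.sum_mul]
      exact Finset.sum_congr rfl (fun l _ => by ring)
    refine (Fintype.linearIndependent_iff.1 hw) c ?_
    funext m
    have := h0 m
    simpa [Finset.sum_apply, smul_eq_mul, ← he] using this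
  obtain ⟨x, hx⟩ := hm ℂ X r F hFi
  -- the points are different
  have hinj : Function.Injective (fun j => ((x j : X) : ℝ)) := by
    intro j j' hjj
    by_contra hne
    apply hx
    refine Matrix.det_zero_of_column_eq hne (fun l => ?_)
    have : x j = x j' := Subtype.ext hjj
    simp [this]
  -- all real values can be prescribed
  have hsurj : ∀ t : Fin r → ℝ, ∃ a : ι → ℂ, ∀ j,
      (∑ i, a i * ∑' m, v i m * (((x j : X) : ℝ) : ℂ) ^ m).re = t j := by
    intro t
    set M : Matrix (Fin r) (Fin r) ℂ := Matrix.of fun i j => F i (x j) with hM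
    have hMu : IsUnit M.det := isUnit_iff_ne_zero.2 hx
    set c : Fin r → ℂ := Matrix.vecMul (fun j => (t j : ℂ)) M⁻¹ with hc
    have hcM : Matrix.vecMul c M = fun j => (t j : ℂ) := by
      rw [hc, Matrix.vecMul_vecMul, Matrix.nonsing_inv_mul _ hMu, Matrix.vecMul_one]
    have hct : ∀ j, ∑ l, c l * F l (x j) = t j := by
      intro j
      have := congrFun hcM j
      simpa [Matrix.vecMul, dotProduct, hM] using this
    let idx : Fin r → ι := fun l => Sum.elim id id (e l)
    let c' : Fin r → ℂ := fun l => Sum.elim (fun _ => c l) (fun _ => conj (c l)) (e l)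
    have hre : ∀ l j, (c l * F l (x j)).re =
        (c' l * ∑' m, v (idx l) m * (((x j : X) : ℝ) : ℂ) ^ m).re := by
      intro l j
      simp only [F, idx, c']
      rcases e l with i | i
      · simp [hu]
      · have h1 : ∑' m, u (Sum.inr i) m * (((x j : X) : ℝ) : ℂ) ^ m =
            conj (∑' m, v i m * (((x j : X) : ℝ) : ℂ) ^ m) := by
          rw [Complex.conj_tsum]
          refine tsum_congr (fun m => ?_)
          simp [hu]
        rw [h1]
        simp only [Sum.elim_inr, id]
        rw [← Complex.conj_re, map_mul, Complex.conj_conj]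
    refine ⟨fun i => ∑ l, if idx l = i then c' l else 0, fun j => ?_⟩
    have h2 : ∑ i, (∑ l, if idx l = i then c' l else 0) *
        ∑' m, v i m * (((x j : X) : ℝ) : ℂ) ^ m =
        ∑ l, c' l * ∑' m, v (idx l) m * (((x j : X) : ℝ) : ℂ) ^ m := by
      simp_rw [Finset.sum_mul]
      rw [Finset.sum_comm]
      refine Finset.sum_congr rfl (fun l _ => ?_)
      simp_rw [ite_mul, zero_mul]
      rw [Finset.sum_ite_eq]
      simp
    rw [h2, Complex.re_sum]
    simp_rw [← hre]
    rw [← Complex.re_sum, hct]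
    simp
  -- reorder the points
  set σ := Tuple.sort (fun j => ((x j : X) : ℝ)) with hσ
  obtain ⟨a, ha⟩ := hsurj (fun j => (-1) ^ ((σ.symm j : Fin r) : ℕ))
  refine ⟨fun l => ((x (σ l) : X) : ℝ), a, ?_, fun l => (x (σ l)).2, fun l => ?_⟩
  · have h1 : Monotone ((fun j => ((x j : X) : ℝ)) ∘ σ) := Tuple.monotone_sort _
    exact h1.strictMono_of_injective (hinj.comp σ.injective)
  · rw [ha (σ l), Equiv.symm_apply_apply]

end Pool.Agent.Y308.LC
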